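import Pool.Agent.P.MP_1144d4_gt.Cube3

/-! The closure of the chain recurrent maps is a Z-set in the space of continuous surjections of a
cube of finite or countably infinite dimension. -/

namespace Pool.Agent.Results.MP_1144d4_gt.CubeChainZSet

open Set Function

/-- Let `X` be a metric space homeomorphic to `[0,1]^ι`, `ι` countable and not empty. For every open
cover of the space of continuous surjections `X → X` there is a homotopy that starts at the
identity, whose tracks lie in members of the cover, and that avoids the closure of the chain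
recurrent maps at all positive times. -/
theorem result (ι : Type) [Countable ι] [Nonempty ι] (X : Type) [MetricSpace X]
    (e : X ≃ₜ (ι → Icc (0 : ℝ) 1)) (𝒰 : Set (Set {f : C(X, X) // Surjective f}))
    (ho : ∀ U ∈ 𝒰, IsOpen U) (hc : ∀ f, ∃ U ∈ 𝒰, f ∈ U) :
    ∃ H : Icc (0 : ℝ) 1 × {f : C(X, X) // Surjective f} → {f : C(X, X) // Surjective f},
      Continuous H ∧ (∀ f, H (0, f) = f) ∧ (∀ f, ∃ U ∈ 𝒰, ∀ t, H (t, f) ∈ U) ∧
      ∀ t f, t ≠ 0 → H (t, f) ∉ closure {h : {f : C(X, X) // Surjective f} |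
        ∀ δ > 0, ∀ x, ∃ (m : ℕ) (s : ℕ → X), 0 < m ∧ s 0 = x ∧ s m = x ∧
          ∀ j < m, dist (h.1 (s j)) (s (j + 1)) < δ} :=
  Pool.Agent.P.MP_1144d4_gt.Cb.main ι X e 𝒰 ho hc

/-- The question with the open cover definition of a Z-set: the case of the interval. -/
theorem interval (𝒰 : Set (Set {f : C(Icc (0 : ℝ) 1, Icc (0 : ℝ) 1) // Surjective f}))
    (ho : ∀ U ∈ 𝒰, IsOpen U) (hc : ∀ f, ∃ U ∈ 𝒰, f ∈ U) :
    ∃ g : {f : C(Icc (0 : ℝ) 1, Icc (0 : ℝ) 1) // Surjective f} →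
        {f : C(Icc (0 : ℝ) 1, Icc (0 : ℝ) 1) // Surjective f},
      Continuous g ∧ ∀ f, (∃ U ∈ 𝒰, f ∈ U ∧ g f ∈ U) ∧
        g f ∉ closure {h : {f : C(Icc (0 : ℝ) 1, Icc (0 : ℝ) 1) // Surjective f} |
          ∀ U V : Set (Icc (0 : ℝ) 1), IsOpen U → IsOpen V → U.Nonempty → V.Nonempty →
            ∃ n : ℕ, 0 < n ∧ (h.1^[n] '' U ∩ V).Nonempty} := by
  obtain ⟨H, h1, h2, h3, h4⟩ :=
    result Unit (Icc (0 : ℝ) 1) (Homeomorph.funUnique Unit _).symm 𝒰 ho hc
  refine ⟨fun f => H (1, f), h1.comp (Continuous.prodMk_right 1), fun f => ⟨?_, fun h => ?_⟩⟩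
  · obtain ⟨U, a, b⟩ := h3 f
    exact ⟨U, a, h2 f ▸ b 0, b 1⟩
  · exact h4 1 f one_ne_zero (closure_mono
      (fun g hg => Pool.Agent.P.MP_1144d4_gt.Cb.chain_of_trans g.1.continuous hg) h)

end Pool.Agent.Results.MP_1144d4_gt.CubeChainZSet
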